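import Pool.Agent.Helper3.NFR.Base
import Pool.Agent.Helper37.KF.Stmts2
import Pool.Agent.Helper37.ZS.Round
import Pool.Agent.Helper60.NF.Scale

/-!
# Domination with small errors on light rows

Random rounding of the dual vector at every scale.
-/

namespace Pool.Agent.Helper11.KF

open Finset Filter Topology
open scoped Classical
open Pool.Agent.Helper3.NFR (ph ps)
open Pool.Agent.Helper50.BL (Ex IsW)

noncomputable section

/-- the functional of the element `v` -/
def F {V R : Type} [Fintype R] (a : V → R → ℝ) (v : V) (y : R → ℝ) : ℝ := ∑ S, a v S * y S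

/-- the weight of a row on two sets -/
def rr {V R : Type} (a : V → R → ℝ) (T E : Finset V) (S : R) : ℝ :=
  ∑ v ∈ E, a v S ^ 2 + ∑ v ∈ T, a v S ^ 2

theorem rr_nonneg {V R : Type} (a : V → R → ℝ) (T E : Finset V) (S : R) : 0 ≤ rr a T E S :=
  add_nonneg (sum_nonneg fun _ _ => sq_nonneg _) (sum_nonneg fun _ _ => sq_nonneg _)

theorem ph_add_le (x y : ℝ) : ph (x + y) ≤ 2 * ph x + 2 * y ^ 2 := by
  have hM : (x + y) ^ 2 ≤ 2 * x ^ 2 + 2 * y ^ 2 := by nlinarith [sq_nonneg (x - y)]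
  have h1 : ph (x + y) ≤ (2 * x ^ 2 + 2 * y ^ 2) / (1 + (2 * x ^ 2 + 2 * y ^ 2)) := by
    unfold ph
    rw [div_le_div_iff₀ (by positivity) (by positivity)]
    nlinarith
  have h2 : (2 * x ^ 2) / (1 + (2 * x ^ 2 + 2 * y ^ 2)) ≤ 2 * (x ^ 2 / (1 + x ^ 2)) := by
    rw [← mul_div_assoc]
    apply div_le_div_of_nonneg_left (by positivity) (by positivity)
    nlinarith [sq_nonneg x, sq_nonneg y]
  have h3 : (2 * y ^ 2) / (1 + (2 * x ^ 2 + 2 * y ^ 2)) ≤ 2 * y ^ 2 := by
    apply div_le_self (by positivity)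
    nlinarith [sq_nonneg x, sq_nonneg y]
  have h4 : (2 * x ^ 2 + 2 * y ^ 2) / (1 + (2 * x ^ 2 + 2 * y ^ 2)) =
      (2 * x ^ 2) / (1 + (2 * x ^ 2 + 2 * y ^ 2)) + (2 * y ^ 2) / (1 + (2 * x ^ 2 + 2 * y ^ 2)) := by
    rw [← add_div]
  unfold ph at h1 ⊢
  linarith

/-! ## the sample -/

/-- weights -/
def mw (p : ℝ) (b : Bool) : ℝ := if b then p else 1 - p

/-- values -/
def gv (p y : ℝ) (b : Bool) : ℝ := if b then y / p else 0

theorem mw_sum (p : ℝ) (f : Bool → ℝ) : ∑ b, mw p b * f b = p * f true + (1 - p) * f false := by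
  simp [mw]

theorem isW_mw {R : Type} (p : R → ℝ) (hp : ∀ S, 0 < p S ∧ p S ≤ 1) :
    IsW (fun S => mw (p S)) := by
  refine ⟨fun S b => ?_, fun S => ?_⟩
  · show 0 ≤ mw (p S) b
    unfold mw
    split_ifs
    · exact (hp S).1.le
    · linarith [(hp S).2]
  · have := mw_sum (p S) (fun _ => 1)
    simp only [mul_one] at this
    show ∑ b, mw (p S) b = 1
    rw [this]
    ring

theorem gv_cen {p : ℝ} (hp : 0 < p) (y : ℝ) : ∑ b, mw p b * (gv p y b - y) = 0 := by
  rw [mw_sum]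
  simp only [gv, if_true, Bool.false_eq_true, if_false]
  field_simp
  ring

theorem gv_var {p : ℝ} (hp : 0 < p) (y : ℝ) :
    ∑ b, mw p b * (gv p y b - y) ^ 2 = y ^ 2 * (1 / p - 1) := by
  rw [mw_sum]
  simp only [gv, if_true, Bool.false_eq_true, if_false]
  field_simp
  ring

theorem gv_ps {p : ℝ} (l y : ℝ) :
    ∑ b, mw p b * ps (l * gv p y b) = p * ps (l * (y / p)) := by
  rw [mw_sum]
  simp only [gv, if_true, Bool.false_eq_true, if_false, mul_zero]
  have : ps 0 = 0 := by simp [ps]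
  rw [this]
  ring

section samp

variable {V R : Type} [Fintype R]

theorem F_split (a : V → R → ℝ) (v : V) (y : R → ℝ) (G : R → ℝ) :
    F a v G = F a v y + ∑ S, a v S * (G S - y S) := by
  unfold F
  rw [← sum_add_distrib]
  refine sum_congr rfl fun S _ => ?_
  ring

theorem Ex_noise (a : V → R → ℝ) (v : V) (p y : R → ℝ) (hp : ∀ S, 0 < p S ∧ p S ≤ 1) :
    Ex (fun S => mw (p S)) (fun w => (∑ S, a v S * (gv (p S) (y S) (w S) - y S)) ^ 2)
      = ∑ S, a v S ^ 2 * (y S ^ 2 * (1 / p S - 1)) := by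
  have h := Pool.Agent.Helper37.ZS.Ex_quad (mu := fun S => mw (p S)) (isW_mw p hp)
    (fun k l => a v k * a v l) (fun S b => gv (p S) (y S) b - y S) (fun S => gv_cen (hp S).1 _)
  have e : (fun w : R → Bool => (∑ S, a v S * (gv (p S) (y S) (w S) - y S)) ^ 2) =
      fun w => ∑ k, ∑ l, a v k * a v l * ((gv (p k) (y k) (w k) - y k) *
        (gv (p l) (y l) (w l) - y l)) := by
    funext w
    rw [sq, sum_mul_sum]
    refine sum_congr rfl fun k _ => sum_congr rfl fun l _ => ?_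
    ring
  rw [e, h]
  refine sum_congr rfl fun k _ => ?_
  rw [gv_var (hp k).1]
  ring

theorem samp (a : V → R → ℝ) (al be ga : ℝ) (lam : R → ℝ) (s : V → ℝ) (T E : Finset V)
    (hal : 0 ≤ al) (hga : 0 ≤ ga) (hs : ∀ v, 0 ≤ s v ∧ s v ≤ 1)
    (H : ∀ y : R → ℝ, al * ∑ u ∈ E, ph (F a u y) ≤
      be * ∑ S, ps (lam S * y S) + ga * ∑ v ∈ T, ph (s v * F a v y))
    (p y : R → ℝ) (hp : ∀ S, 0 < p S ∧ p S ≤ 1) :
    al * ∑ u ∈ E, ph (F a u y) ≤ 2 * be * ∑ S, p S * ps (lam S * (y S / p S)) +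
      4 * ga * ∑ v ∈ T, ph (s v * F a v y) +
      (2 * al + 4 * ga) * ∑ S, rr a T E S * (y S ^ 2 * (1 / p S - 1)) := by
  set N : V → (R → Bool) → ℝ := fun v w => ∑ S, a v S * (gv (p S) (y S) (w S) - y S) with hN
  have hpt : ∀ w : R → Bool, al * ∑ u ∈ E, ph (F a u y) ≤
      2 * be * ∑ S, ps (lam S * gv (p S) (y S) (w S)) + (4 * ga * ∑ v ∈ T, ph (s v * F a v y) +
      (2 * al + 4 * ga) * (∑ v ∈ E, N v w ^ 2 + ∑ v ∈ T, N v w ^ 2)) := by
    intro w
    have hF : ∀ v, F a v (fun S => gv (p S) (y S) (w S)) = F a v y + N v w := fun v =>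
      F_split a v y _
    have h1 : ∑ u ∈ E, ph (F a u y) ≤
        2 * ∑ u ∈ E, ph (F a u (fun S => gv (p S) (y S) (w S))) + 2 * ∑ u ∈ E, N u w ^ 2 := by
      rw [mul_sum, mul_sum, ← sum_add_distrib]
      refine sum_le_sum fun u _ => ?_
      have := ph_add_le (F a u (fun S => gv (p S) (y S) (w S))) (-N u w)
      have e : F a u (fun S => gv (p S) (y S) (w S)) + -N u w = F a u y := by rw [hF u]; ring
      rw [e] at this
      linarith [neg_sq (N u w)]
    have h2 : ∑ v ∈ T, ph (s v * F a v (fun S => gv (p S) (y S) (w S))) ≤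
        2 * ∑ v ∈ T, ph (s v * F a v y) + 2 * ∑ v ∈ T, N v w ^ 2 := by
      rw [mul_sum, mul_sum, ← sum_add_distrib]
      refine sum_le_sum fun v _ => ?_
      have := ph_add_le (s v * F a v y) (s v * N v w)
      rw [hF v, mul_add]
      have h3 : (s v * N v w) ^ 2 ≤ N v w ^ 2 := by
        rw [mul_pow]
        have : s v ^ 2 ≤ 1 := pow_le_one₀ (hs v).1 (hs v).2
        nlinarith [sq_nonneg (N v w)]
      linarith
    have h3 := H (fun S => gv (p S) (y S) (w S))
    have h4 : 0 ≤ ∑ v ∈ E, N v w ^ 2 := sum_nonneg fun _ _ => sq_nonneg _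
    have h5 : 0 ≤ ∑ v ∈ T, N v w ^ 2 := sum_nonneg fun _ _ => sq_nonneg _
    have h6 := mul_le_mul_of_nonneg_left h1 hal
    have h7 := mul_le_mul_of_nonneg_left h2 hga
    have h8 : 0 ≤ al * ∑ v ∈ T, N v w ^ 2 := mul_nonneg hal h5
    have h9 : 0 ≤ ga * ∑ v ∈ E, N v w ^ 2 := mul_nonneg hga h4
    nlinarith [h3, h6, h7, h8, h9]
  have hW := isW_mw p hp
  have hE := Pool.Agent.Helper50.BL.Ex_mono hW hpt
  rw [Pool.Agent.Helper50.BL.Ex_const hW, Pool.Agent.Helper50.BL.Ex_add,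
    Pool.Agent.Helper50.BL.Ex_add, Pool.Agent.Helper50.BL.Ex_const hW,
    Pool.Agent.Helper50.BL.Ex_mul_left, Pool.Agent.Helper50.BL.Ex_mul_left,
    Pool.Agent.Helper50.BL.Ex_add, Pool.Agent.Helper50.BL.Ex_sum,
    Pool.Agent.Helper50.BL.Ex_sum, Pool.Agent.Helper50.BL.Ex_sum] at hE
  have e1 : ∑ S, Ex (fun S => mw (p S)) (fun w => ps (lam S * gv (p S) (y S) (w S))) =
      ∑ S, p S * ps (lam S * (y S / p S)) := by
    refine sum_congr rfl fun S _ => ?_
    have := Pool.Agent.Helper50.BL.Ex_coord hW S (fun b => ps (lam S * gv (p S) (y S) b))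
    rw [this]
    exact gv_ps _ _
  have e2 : ∑ v ∈ E, Ex (fun S => mw (p S)) (fun w => N v w ^ 2) +
      ∑ v ∈ T, Ex (fun S => mw (p S)) (fun w => N v w ^ 2) =
      ∑ S, rr a T E S * (y S ^ 2 * (1 / p S - 1)) := by
    have : ∀ v, Ex (fun S => mw (p S)) (fun w => N v w ^ 2) =
        ∑ S, a v S ^ 2 * (y S ^ 2 * (1 / p S - 1)) := fun v => Ex_noise a v p y hp
    simp only [this]
    rw [sum_comm, sum_comm (s := T), ← sum_add_distrib]
    refine sum_congr rfl fun S _ => ?_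
    rw [rr, add_mul, sum_mul, sum_mul]
  rw [e1, e2] at hE
  linarith

end samp

/-! ## pointwise bounds -/

/-- the profile function, `w ^ 2` is the size -/
def mm (w : ℝ) : ℝ := w ^ 3 / (1 + w ^ 2)

theorem mm_nonneg {w : ℝ} (hw : 0 ≤ w) : 0 ≤ mm w := by unfold mm; positivity

theorem one_add_pow' {q : ℝ} (hq : 0 ≤ q) (n : ℕ) : 1 + q ^ (n + 1) ≤ (1 + q) ^ (n + 1) := by
  induction n with
  | zero => simp
  | succ n ih =>
    have h1 : (1 + q) ^ (n + 1 + 1) = (1 + q) ^ (n + 1) * (1 + q) := pow_succ _ _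
    have h2 : (1 + q ^ (n + 1)) * (1 + q) ≤ (1 + q) ^ (n + 1) * (1 + q) :=
      mul_le_mul_of_nonneg_right ih (by linarith)
    have h3 : 0 ≤ q ^ (n + 1) := pow_nonneg hq _
    have h4 : q ^ (n + 1 + 1) = q ^ (n + 1) * q := pow_succ _ _
    rw [h1]
    refine le_trans ?_ h2
    rw [h4]
    nlinarith

theorem log_one_add_pow {q : ℝ} (hq : 0 ≤ q) : Real.log (1 + q ^ 20) ≤ 20 * q := by
  calc Real.log (1 + q ^ 20) ≤ Real.log ((1 + q) ^ 20) :=
        Real.log_le_log (by positivity) (one_add_pow' hq 19)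
    _ = 20 * Real.log (1 + q) := by rw [Real.log_pow]; norm_num
    _ ≤ 20 * q := by
      have := Real.log_le_sub_one_of_pos (show 0 < 1 + q by positivity)
      linarith

/-- no rounding needed -/
theorem un_bd {w t : ℝ} (hw : 0 ≤ w) (ht0 : 0 < t) (ht1 : t ≤ 1)
    (h : w ≤ t ^ 5 ∨ 1 ≤ t ^ 5 * w ∨ t = 1) : Real.log (1 + w ^ 4) ≤ 40 * (t ^ 4 * mm w) := by
  have ht4 : t ^ 5 ≤ t ^ 4 := pow_le_pow_of_le_one ht0.le ht1 (by norm_num)
  have ht40 : 0 < t ^ 4 := by positivity
  rcases le_total w 1 with h1 | h1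
  · have hsm : w ^ 4 ≤ 2 * (w * mm w) := by
      unfold mm
      have h2 : 2 * (w * (w ^ 3 / (1 + w ^ 2))) = 2 * w ^ 4 / (1 + w ^ 2) := by ring
      rw [h2, le_div_iff₀ (by positivity)]
      have : w ^ 2 ≤ 1 := pow_le_one₀ hw h1
      nlinarith [pow_nonneg hw 4]
    have hwt : w ≤ t ^ 4 := by
      rcases h with h | h | h
      · exact h.trans ht4
      · have h3 : t ^ 5 * w ≤ t ^ 4 * 1 := mul_le_mul ht4 h1 hw ht40.le
        linarith
      · rw [h]; norm_num; exact h1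
    have h2 := Real.log_le_sub_one_of_pos (show 0 < 1 + w ^ 4 by positivity)
    have h3 : w * mm w ≤ t ^ 4 * mm w := mul_le_mul_of_nonneg_right hwt (mm_nonneg hw)
    have h4 : 0 ≤ t ^ 4 * mm w := mul_nonneg ht40.le (mm_nonneg hw)
    linarith
  · have h2 : w / 2 ≤ mm w := by
      unfold mm
      rw [div_le_div_iff₀ (by norm_num) (by positivity)]
      nlinarith [sq_nonneg w]
    set q : ℝ := w ^ (1 / 5 : ℝ) with hq
    have hq0 : 0 ≤ q := by positivity
    have hq5 : q ^ 5 = w := by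
      rw [hq, ← Real.rpow_natCast, ← Real.rpow_mul hw]
      norm_num
    have hq1 : 1 ≤ q := Real.one_le_rpow h1 (by norm_num)
    have hqt : q ≤ t ^ 4 * w := by
      have hone : 1 ≤ t * q := by
        rcases h with h | h | h
        · have h5 : 1 ≤ t ^ 5 := h1.trans h
          have : t = 1 := by
            by_contra hne
            have hlt : t < 1 := lt_of_le_of_ne ht1 hne
            have : t ^ 5 < 1 := pow_lt_one₀ ht0.le hlt (by norm_num)
            linarith
          rw [this]; linarith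
        · by_contra hc
          push Not at hc
          have : (t * q) ^ 5 < 1 := pow_lt_one₀ (by positivity) hc (by norm_num)
          rw [mul_pow, hq5] at this
          linarith
        · rw [h]; linarith
      have h3 : (1 : ℝ) ≤ (t * q) ^ 4 := one_le_pow₀ hone
      calc q = 1 * q := (one_mul q).symm
        _ ≤ (t * q) ^ 4 * q := mul_le_mul_of_nonneg_right h3 hq0
        _ = t ^ 4 * q ^ 5 := by ring
        _ = t ^ 4 * w := by rw [hq5]
    have h3 : Real.log (1 + w ^ 4) ≤ 20 * q := by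
      have e : w ^ 4 = q ^ 20 := by rw [← hq5]; ring
      rw [e]
      exact log_one_add_pow hq0
    have h4 : t ^ 4 * (w / 2) ≤ t ^ 4 * mm w := mul_le_mul_of_nonneg_left h2 ht40.le
    linarith

/-- rounding -/
theorem rd_bd {w t : ℝ} (hw : 0 < w) (ht0 : 0 < t) (ht1 : t ≤ 1)
    (h1 : t ^ 5 ≤ w) (h2 : t ^ 5 * w ≤ 1) :
    t ^ 10 * w ^ 2 * Real.log (1 + 1 / t ^ 20) ≤ 40 * (t ^ 4 * mm w) ∧
      t ^ 10 * w ^ 2 ≤ 2 * (t ^ 4 * mm w) := by
  have hm : t ^ 5 * w ^ 2 ≤ 2 * mm w := by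
    unfold mm
    rw [← mul_div_assoc, le_div_iff₀ (by positivity)]
    have h3 : t ^ 5 * (1 + w ^ 2) ≤ 2 * w := by nlinarith
    nlinarith [mul_le_mul_of_nonneg_left h3 (sq_nonneg w)]
  have hl : Real.log (1 + 1 / t ^ 20) ≤ 20 / t := by
    have := log_one_add_pow (q := 1 / t) (by positivity)
    rw [one_div_pow] at this
    have e : 20 / t = 20 * (1 / t) := by ring
    rw [e]
    exact this
  have hmn := mm_nonneg hw.le
  constructor
  · calc t ^ 10 * w ^ 2 * Real.log (1 + 1 / t ^ 20) ≤ t ^ 10 * w ^ 2 * (20 / t) :=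
        mul_le_mul_of_nonneg_left hl (by positivity)
      _ = 20 * t ^ 4 * (t ^ 5 * w ^ 2) := by field_simp
      _ ≤ 20 * t ^ 4 * (2 * mm w) := mul_le_mul_of_nonneg_left hm (by positivity)
      _ = 40 * (t ^ 4 * mm w) := by ring
  · have h3 : t ^ 5 ≤ t ^ 4 := pow_le_pow_of_le_one ht0.le ht1 (by norm_num)
    calc t ^ 10 * w ^ 2 = t ^ 5 * (t ^ 5 * w ^ 2) := by ring
      _ ≤ t ^ 4 * (2 * mm w) := mul_le_mul h3 hm (by positivity) (by positivity)
      _ = 2 * (t ^ 4 * mm w) := by ring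

/-- the exponent of a row -/
def te (r l : ℝ) : ℝ := (min 1 (r / l ^ 2)) ^ (1 / 5 : ℝ)

theorem te_nonneg {r l : ℝ} (hr : 0 ≤ r) : 0 ≤ te r l := by
  unfold te
  have : 0 ≤ min 1 (r / l ^ 2) := le_min zero_le_one (by positivity)
  positivity

theorem te_pow {r l : ℝ} (hr : 0 ≤ r) : ∃ t : ℝ, 0 ≤ t ∧ t ≤ 1 ∧ t ^ 20 = min 1 (r / l ^ 2) ∧
    te r l = t ^ 4 := by
  have h0 : 0 ≤ min 1 (r / l ^ 2) := le_min zero_le_one (by positivity)
  refine ⟨(min 1 (r / l ^ 2)) ^ (1 / 20 : ℝ), by positivity,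
    Real.rpow_le_one h0 (min_le_left _ _) (by norm_num), ?_, ?_⟩
  · rw [← Real.rpow_natCast, ← Real.rpow_mul h0]
    norm_num
  · unfold te
    rw [← Real.rpow_natCast ((min 1 (r / l ^ 2)) ^ (1 / 20 : ℝ)) 4, ← Real.rpow_mul h0]
    norm_num

theorem choose_p {r l x : ℝ} (hr : 0 < r) (hl : 0 < l) : ∃ p : ℝ, 0 < p ∧ p ≤ 1 ∧
    p * ps (l * (x / p)) ≤ 40 * (te r l * mm (Real.sqrt (l * |x|))) ∧
    r * (x ^ 2 * (1 / p - 1)) ≤ 2 * (te r l * mm (Real.sqrt (l * |x|))) := by
  set w := Real.sqrt (l * |x|) with hw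
  obtain ⟨t, htn, ht1, ht8, hte⟩ := te_pow (l := l) hr.le
  rw [hte]
  have hX : 0 ≤ l * |x| := by positivity
  have hw0 : 0 ≤ w := Real.sqrt_nonneg _
  have hw2 : w ^ 2 = l * |x| := Real.sq_sqrt hX
  have ht0 : 0 < t := by
    rcases htn.eq_or_lt with h | h
    · exfalso
      rw [← h] at ht8
      have : 0 < min 1 (r / l ^ 2) := lt_min one_pos (by positivity)
      rw [← ht8] at this
      norm_num at this
    · exact h
  have hw4 : (l * x) ^ 2 = w ^ 4 := by
    have : w ^ 4 = (w ^ 2) ^ 2 := by ring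
    rw [this, hw2, mul_pow, mul_pow, sq_abs]
  by_cases hcase : w ≤ t ^ 5 ∨ 1 ≤ t ^ 5 * w ∨ t = 1
  · refine ⟨1, one_pos, le_refl _, ?_, ?_⟩
    · have := un_bd hw0 ht0 ht1 hcase
      unfold ps
      rw [div_one, one_mul, hw4]
      exact this
    · have : 0 ≤ t ^ 4 * mm w := mul_nonneg (by positivity) (mm_nonneg hw0)
      have e5 : r * (x ^ 2 * (1 / 1 - 1)) = 0 := by ring
      rw [e5]
      linarith
  · push Not at hcase
    obtain ⟨c1, c2, c3⟩ := hcase
    have hwp : 0 < w := lt_of_le_of_lt (by positivity) c1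
    have hxp : 0 < |x| := by
      by_contra hx
      push Not at hx
      have : |x| = 0 := le_antisymm hx (abs_nonneg x)
      rw [this, mul_zero] at hw2
      have : 0 < w ^ 2 := by positivity
      linarith
    have ht8' : t ^ 20 = r / l ^ 2 := by
      rw [ht8]
      apply min_eq_right
      by_contra hc
      push Not at hc
      rw [min_eq_left hc.le] at ht8
      have : t = 1 := by
        by_contra hne
        have hlt : t < 1 := lt_of_le_of_ne ht1 hne
        have : t ^ 20 < 1 := pow_lt_one₀ htn hlt (by norm_num)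
        linarith
      exact c3 this
    have hp0 : 0 < t ^ 10 * w ^ 2 := by positivity
    have hp1 : t ^ 10 * w ^ 2 ≤ 1 := by
      have : t ^ 10 * w ^ 2 = (t ^ 5 * w) ^ 2 := by ring
      rw [this]
      exact pow_le_one₀ (by positivity) c2.le
    obtain ⟨r1, r2⟩ := rd_bd hwp ht0 ht1 c1.le c2.le
    refine ⟨t ^ 10 * w ^ 2, hp0, hp1, ?_, ?_⟩
    · have e : (l * (x / (t ^ 10 * w ^ 2))) ^ 2 = 1 / t ^ 20 := by
        have : (l * (x / (t ^ 10 * w ^ 2))) ^ 2 = (l * x) ^ 2 / (t ^ 20 * w ^ 4) := by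
          field_simp
        rw [this, hw4]
        field_simp
      unfold ps
      rw [e]
      exact r1
    · have h3 : r * x ^ 2 = t ^ 20 * w ^ 4 := by
        rw [ht8', ← hw4]
        field_simp
      have h4 : r * (x ^ 2 * (1 / (t ^ 10 * w ^ 2) - 1)) ≤ t ^ 10 * w ^ 2 := by
        have h5 : r * (x ^ 2 * (1 / (t ^ 10 * w ^ 2) - 1)) =
            t ^ 20 * w ^ 4 * (1 / (t ^ 10 * w ^ 2)) - t ^ 20 * w ^ 4 := by
          rw [← h3]; ring
        have h6 : t ^ 20 * w ^ 4 * (1 / (t ^ 10 * w ^ 2)) = t ^ 10 * w ^ 2 := by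
          field_simp
        rw [h5, h6]
        have : 0 ≤ t ^ 20 * w ^ 4 := by positivity
        linarith
      exact h4.trans r2

/-! ## integration over the scales -/

/-- primitive of the profile -/
def BB (X h : ℝ) : ℝ := 2 * X * Real.arctan (Real.sqrt (h / X))

theorem BB_deriv (X h : ℝ) (hX : 0 ≤ X) (hh : 0 < h) :
    HasDerivAt (BB X) (mm (Real.sqrt (X / h))) h := by
  rcases hX.eq_or_lt with h0 | h0
  · subst h0
    have : BB 0 = fun _ => (0 : ℝ) := by
      funext h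
      simp [BB]
    rw [this]
    have e : mm (Real.sqrt (0 / h)) = 0 := by simp [mm]
    rw [e]
    exact hasDerivAt_const h (0 : ℝ)
  · have hu : 0 < h / X := by positivity
    have h1 : HasDerivAt (fun h : ℝ => h / X) (1 / X) h := by
      simpa using (hasDerivAt_id h).div_const X
    have h2 := ((h1.sqrt hu.ne').arctan).const_mul (2 * X)
    have hq : 0 < Real.sqrt (h / X) := Real.sqrt_pos.2 hu
    have e1 : Real.sqrt (X / h) = 1 / Real.sqrt (h / X) := by
      rw [one_div, ← Real.sqrt_inv, inv_div]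
    have e : 2 * X * (1 / (1 + Real.sqrt (h / X) ^ 2) * (1 / X / (2 * Real.sqrt (h / X)))) =
        mm (Real.sqrt (X / h)) := by
      rw [e1]
      unfold mm
      field_simp
      ring
    rw [← e]
    exact h2

theorem BB_top (X : ℝ) (hX : 0 ≤ X) : Tendsto (BB X) atTop (𝓝 (2 * X * (Real.pi / 2))) := by
  rcases hX.eq_or_lt with h0 | h0
  · subst h0
    have : BB 0 = fun _ => (0 : ℝ) := by
      funext h
      simp [BB]
    rw [this]
    simp
  · unfold BB
    apply Tendsto.const_mul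
    have h1 : Tendsto (fun h : ℝ => h / X) atTop atTop := tendsto_id.atTop_div_const h0
    exact (tendsto_nhds_of_tendsto_nhdsWithin Real.tendsto_arctan_atTop).comp
      (Real.tendsto_sqrt_atTop.comp h1)

theorem BB_zero (X : ℝ) : Tendsto (BB X) (𝓝[>] 0) (𝓝 0) := by
  have h1 : Continuous (BB X) := by
    unfold BB
    exact continuous_const.mul (Real.continuous_arctan.comp
      (Real.continuous_sqrt.comp (continuous_id.div_const _)))
  have h2 : BB X 0 = 0 := by simp [BB]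
  have h3 := h1.tendsto 0
  rw [h2] at h3
  exact h3.mono_left nhdsWithin_le_nhds

theorem ph_div (x h : ℝ) (hh : 0 < h) : ph (x / h) = x ^ 2 / (h ^ 2 + x ^ 2) := by
  unfold ph
  have h1 : 0 < h ^ 2 + x ^ 2 := by positivity
  have h2 : 0 < 1 + (x / h) ^ 2 := by positivity
  rw [div_eq_div_iff h2.ne' h1.ne']
  field_simp

section final

variable {V R : Type} [Fintype R]

theorem F_div (a : V → R → ℝ) (v : V) (y : R → ℝ) (h : ℝ) :
    F a v (fun S => y S / h) = F a v y / h := by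
  unfold F
  rw [sum_div]
  refine sum_congr rfl fun S _ => ?_
  ring

/-- the domination at one scale after rounding -/
theorem one_scale (a : V → R → ℝ) (al be ga : ℝ) (lam : R → ℝ) (s : V → ℝ) (T E : Finset V)
    (hal : 0 ≤ al) (hbe : 0 ≤ be) (hga : 0 ≤ ga) (hlam : ∀ S, 0 < lam S)
    (hs : ∀ v, 0 ≤ s v ∧ s v ≤ 1)
    (H : ∀ y : R → ℝ, al * ∑ u ∈ E, ph (F a u y) ≤
      be * ∑ S, ps (lam S * y S) + ga * ∑ v ∈ T, ph (s v * F a v y)) (y : R → ℝ) :
    al * ∑ u ∈ E, ph (F a u y) ≤ 4 * ga * ∑ v ∈ T, ph (s v * F a v y) +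
      80 * (al + be + ga) * ∑ S, te (rr a T E S) (lam S) * mm (Real.sqrt (lam S * |y S|)) := by
  set y' : R → ℝ := fun S => if 0 < rr a T E S then y S else 0 with hy'
  have hz : ∀ S, ¬ 0 < rr a T E S → (∀ v ∈ E, a v S = 0) ∧ ∀ v ∈ T, a v S = 0 := by
    intro S hS
    have h0 : rr a T E S = 0 := le_antisymm (not_lt.1 hS) (rr_nonneg a T E S)
    unfold rr at h0
    have h1 : 0 ≤ ∑ v ∈ E, a v S ^ 2 := sum_nonneg fun _ _ => sq_nonneg _
    have h2 : 0 ≤ ∑ v ∈ T, a v S ^ 2 := sum_nonneg fun _ _ => sq_nonneg _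
    have h3 : ∑ v ∈ E, a v S ^ 2 = 0 := by linarith
    have h4 : ∑ v ∈ T, a v S ^ 2 = 0 := by linarith
    rw [sum_eq_zero_iff_of_nonneg (fun _ _ => sq_nonneg _)] at h3 h4
    exact ⟨fun v hv => by simpa using h3 v hv, fun v hv => by simpa using h4 v hv⟩
  have hFE : ∀ v ∈ E, F a v y' = F a v y := by
    intro v hv
    unfold F
    refine sum_congr rfl fun S _ => ?_
    by_cases hS : 0 < rr a T E S
    · simp only [hy', hS, if_true]
    · rw [(hz S hS).1 v hv]; ring
  have hFT : ∀ v ∈ T, F a v y' = F a v y := by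
    intro v hv
    unfold F
    refine sum_congr rfl fun S _ => ?_
    by_cases hS : 0 < rr a T E S
    · simp only [hy', hS, if_true]
    · rw [(hz S hS).2 v hv]; ring
  have hch : ∀ S, ∃ p : ℝ, 0 < p ∧ p ≤ 1 ∧
      p * ps (lam S * (y' S / p)) ≤ 40 * (te (rr a T E S) (lam S) * mm (Real.sqrt (lam S * |y S|))) ∧
      rr a T E S * (y' S ^ 2 * (1 / p - 1)) ≤
        2 * (te (rr a T E S) (lam S) * mm (Real.sqrt (lam S * |y S|))) := by
    intro S
    by_cases hS : 0 < rr a T E S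
    · obtain ⟨p, h1, h2, h3, h4⟩ := choose_p (x := y S) hS (hlam S)
      refine ⟨p, h1, h2, ?_, ?_⟩
      · simpa only [hy', hS, if_true] using h3
      · simpa only [hy', hS, if_true] using h4
    · have e : y' S = 0 := by simp only [hy', hS, if_false]
      have h0 : 0 ≤ te (rr a T E S) (lam S) * mm (Real.sqrt (lam S * |y S|)) :=
        mul_nonneg (te_nonneg (rr_nonneg a T E S)) (mm_nonneg (Real.sqrt_nonneg _))
      refine ⟨1, one_pos, le_refl _, ?_, ?_⟩
      · have e5 : (1 : ℝ) * ps (lam S * (0 / 1)) = 0 := by simp [ps]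
        rw [e, e5]
        linarith
      · have e5 : rr a T E S * ((0 : ℝ) ^ 2 * (1 / 1 - 1)) = 0 := by ring
        rw [e, e5]
        linarith
  choose p hp using hch
  have hm := samp a al be ga lam s T E hal hga hs H p y' (fun S => ⟨(hp S).1, (hp S).2.1⟩)
  have e1 : ∑ u ∈ E, ph (F a u y') = ∑ u ∈ E, ph (F a u y) :=
    sum_congr rfl fun u hu => by rw [hFE u hu]
  have e2 : ∑ v ∈ T, ph (s v * F a v y') = ∑ v ∈ T, ph (s v * F a v y) :=
    sum_congr rfl fun u hu => by rw [hFT u hu]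
  rw [e1, e2] at hm
  set Q : ℝ := ∑ S, te (rr a T E S) (lam S) * mm (Real.sqrt (lam S * |y S|)) with hQ
  have hQ0 : 0 ≤ Q := sum_nonneg fun S _ =>
    mul_nonneg (te_nonneg (rr_nonneg a T E S)) (mm_nonneg (Real.sqrt_nonneg _))
  have h1 : ∑ S, p S * ps (lam S * (y' S / p S)) ≤ 40 * Q := by
    rw [hQ, mul_sum]
    exact sum_le_sum fun S _ => (hp S).2.2.1
  have h2 : ∑ S, rr a T E S * (y' S ^ 2 * (1 / p S - 1)) ≤ 2 * Q := by
    rw [hQ, mul_sum]
    exact sum_le_sum fun S _ => (hp S).2.2.2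
  have h3 := mul_le_mul_of_nonneg_left h1 (show 0 ≤ 2 * be by linarith)
  have h4 := mul_le_mul_of_nonneg_left h2 (show 0 ≤ 2 * al + 4 * ga by linarith)
  have h5 : 0 ≤ al * Q := mul_nonneg hal hQ0
  have h6 : 0 ≤ be * Q := mul_nonneg hbe hQ0
  have h7 : 0 ≤ ga * Q := mul_nonneg hga hQ0
  linarith only [hm, h3, h4, h5, h6, h7]

/-- domination of absolute values with small errors on light rows -/
theorem l1d_aux (a : V → R → ℝ) (al be ga : ℝ) (lam : R → ℝ) (s : V → ℝ) (T E : Finset V)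
    (hal : 0 ≤ al) (hbe : 0 ≤ be) (hga : 0 ≤ ga) (hlam : ∀ S, 0 < lam S)
    (hs : ∀ v, 0 ≤ s v ∧ s v ≤ 1)
    (H : ∀ y : R → ℝ, al * ∑ u ∈ E, ph (F a u y) ≤
      be * ∑ S, ps (lam S * y S) + ga * ∑ v ∈ T, ph (s v * F a v y)) (y : R → ℝ) :
    al * ∑ u ∈ E, |F a u y| ≤ 4 * ga * ∑ v ∈ T, s v * |F a v y| +
      160 * (al + be + ga) * ∑ S, lam S * te (rr a T E S) (lam S) * |y S| := by
  set Cc : ℝ := 80 * (al + be + ga) with hCc
  set X : R → ℝ := fun S => lam S * |y S| with hX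
  have hX0 : ∀ S, 0 ≤ X S := fun S => mul_nonneg (hlam S).le (abs_nonneg _)
  set Ψ : ℝ → ℝ := fun h => 4 * ga * ∑ v ∈ T, Pool.Agent.Helper60.NF.AA (s v * F a v y) h
    + Cc * ∑ S, te (rr a T E S) (lam S) * BB (X S) h
    - al * ∑ u ∈ E, Pool.Agent.Helper60.NF.AA (F a u y) h with hΨ
  have hder : ∀ h : ℝ, 0 < h → HasDerivAt Ψ
      (4 * ga * ∑ v ∈ T, ((s v * F a v y) ^ 2 / (h ^ 2 + (s v * F a v y) ^ 2))
        + Cc * ∑ S, te (rr a T E S) (lam S) * mm (Real.sqrt (X S / h))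
        - al * ∑ u ∈ E, ((F a u y) ^ 2 / (h ^ 2 + (F a u y) ^ 2))) h := by
    intro h hh
    have h1 : HasDerivAt (fun h => ∑ v ∈ T, Pool.Agent.Helper60.NF.AA (s v * F a v y) h)
        (∑ v ∈ T, ((s v * F a v y) ^ 2 / (h ^ 2 + (s v * F a v y) ^ 2))) h := by
      apply HasDerivAt.fun_sum
      intro v _
      exact Pool.Agent.Helper60.NF.AA_deriv _ h
    have h2 : HasDerivAt (fun h => ∑ u ∈ E, Pool.Agent.Helper60.NF.AA (F a u y) h)
        (∑ u ∈ E, ((F a u y) ^ 2 / (h ^ 2 + (F a u y) ^ 2))) h := by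
      apply HasDerivAt.fun_sum
      intro v _
      exact Pool.Agent.Helper60.NF.AA_deriv _ h
    have h3 : HasDerivAt (fun h => ∑ S, te (rr a T E S) (lam S) * BB (X S) h)
        (∑ S, te (rr a T E S) (lam S) * mm (Real.sqrt (X S / h))) h := by
      apply HasDerivAt.fun_sum
      intro S _
      exact (BB_deriv (X S) h (hX0 S) hh).const_mul _
    exact ((h1.const_mul (4 * ga)).add (h3.const_mul Cc)).sub (h2.const_mul al)
  have hmono : MonotoneOn Ψ (Set.Ioi 0) := by
    apply monotoneOn_of_deriv_nonneg (convex_Ioi 0)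
    · intro h hh
      exact (hder h hh).continuousAt.continuousWithinAt
    · intro h hh
      rw [interior_Ioi] at hh
      exact (hder h hh).differentiableAt.differentiableWithinAt
    · intro h hh
      rw [interior_Ioi] at hh
      have hh' : 0 < h := hh
      rw [(hder h hh).deriv]
      have h1 := one_scale a al be ga lam s T E hal hbe hga hlam hs H (fun S => y S / h)
      have h2 : ∀ v, ph (F a v (fun S => y S / h)) = (F a v y) ^ 2 / (h ^ 2 + (F a v y) ^ 2) := by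
        intro v
        rw [F_div, ph_div _ _ hh']
      have h3 : ∀ v, ph (s v * F a v (fun S => y S / h)) =
          (s v * F a v y) ^ 2 / (h ^ 2 + (s v * F a v y) ^ 2) := by
        intro v
        rw [F_div, ← mul_div_assoc, ph_div _ _ hh']
      have h4 : ∀ S, lam S * |y S / h| = X S / h := by
        intro S
        rw [abs_div, abs_of_pos hh', hX]
        ring
      simp only [h2, h3, h4] at h1
      linarith
  have htop : Tendsto Ψ atTop (𝓝 (4 * ga * ∑ v ∈ T, (|s v * F a v y| * (Real.pi / 2))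
      + Cc * ∑ S, te (rr a T E S) (lam S) * (2 * X S * (Real.pi / 2))
      - al * ∑ u ∈ E, (|F a u y| * (Real.pi / 2)))) := by
    apply Tendsto.sub
    · apply Tendsto.add
      · apply Tendsto.const_mul
        apply tendsto_finsetSum
        intro v _
        exact Pool.Agent.Helper60.NF.AA_top _
      · apply Tendsto.const_mul
        apply tendsto_finsetSum
        intro S _
        exact (BB_top (X S) (hX0 S)).const_mul _
    · apply Tendsto.const_mul
      apply tendsto_finsetSum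
      intro v _
      exact Pool.Agent.Helper60.NF.AA_top _
  have hzero : Tendsto Ψ (𝓝[>] 0) (𝓝 (4 * ga * ∑ v ∈ T, 0
      + Cc * ∑ S, te (rr a T E S) (lam S) * 0 - al * ∑ u ∈ E, 0)) := by
    apply Tendsto.sub
    · apply Tendsto.add
      · apply Tendsto.const_mul
        apply tendsto_finsetSum
        intro v _
        exact Pool.Agent.Helper60.NF.AA_zero _
      · apply Tendsto.const_mul
        apply tendsto_finsetSum
        intro S _
        exact (BB_zero (X S)).const_mul _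
    · apply Tendsto.const_mul
      apply tendsto_finsetSum
      intro v _
      exact Pool.Agent.Helper60.NF.AA_zero _
  have hlim : ∀ h : ℝ, 0 < h → Ψ h ≤ 4 * ga * ∑ v ∈ T, (|s v * F a v y| * (Real.pi / 2))
      + Cc * ∑ S, te (rr a T E S) (lam S) * (2 * X S * (Real.pi / 2))
      - al * ∑ u ∈ E, (|F a u y| * (Real.pi / 2)) := by
    intro h hh
    apply ge_of_tendsto htop
    filter_upwards [eventually_ge_atTop h] with T hT
    exact hmono hh (lt_of_lt_of_le hh hT) hT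
  have hfin := le_of_tendsto hzero (by
    filter_upwards [self_mem_nhdsWithin] with h hh
    exact hlim h hh)
  simp only [mul_zero, Finset.sum_const_zero, add_zero, sub_zero] at hfin
  have e1 : ∑ v ∈ T, |s v * F a v y| * (Real.pi / 2) = Real.pi / 2 * ∑ v ∈ T, s v * |F a v y| := by
    rw [Finset.mul_sum]
    refine sum_congr rfl fun v _ => ?_
    rw [abs_mul, abs_of_nonneg (hs v).1]
    ring
  have e2 : ∑ u ∈ E, |F a u y| * (Real.pi / 2) = Real.pi / 2 * ∑ u ∈ E, |F a u y| := by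
    rw [Finset.mul_sum]
    refine sum_congr rfl fun v _ => ?_
    ring
  have e3 : ∑ S, te (rr a T E S) (lam S) * (2 * X S * (Real.pi / 2))
      = Real.pi / 2 * (2 * ∑ S, lam S * te (rr a T E S) (lam S) * |y S|) := by
    rw [Finset.mul_sum, Finset.mul_sum]
    refine sum_congr rfl fun S _ => ?_
    simp only [hX]
    ring
  rw [e1, e2, e3] at hfin
  have hpi : 0 < Real.pi / 2 := by positivity
  have h9 : 0 ≤ Real.pi / 2 * (4 * ga * ∑ v ∈ T, s v * |F a v y|
      + 160 * (al + be + ga) * ∑ S, lam S * te (rr a T E S) (lam S) * |y S|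
      - al * ∑ u ∈ E, |F a u y|) := by
    have e : Real.pi / 2 * (4 * ga * ∑ v ∈ T, s v * |F a v y|
      + 160 * (al + be + ga) * ∑ S, lam S * te (rr a T E S) (lam S) * |y S|
      - al * ∑ u ∈ E, |F a u y|) = 4 * ga * (Real.pi / 2 * ∑ v ∈ T, s v * |F a v y|)
        + Cc * (Real.pi / 2 * (2 * ∑ S, lam S * te (rr a T E S) (lam S) * |y S|))
        - al * (Real.pi / 2 * ∑ u ∈ E, |F a u y|) := by
      rw [hCc]
      ring
    rw [e]
    exact hfin
  have h10 := nonneg_of_mul_nonneg_right h9 hpi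
  linarith

end final

/-- domination of absolute values with small errors on light rows -/
theorem st_l1d : Pool.Agent.Helper37.KF2.ST_L1D := by
  refine ⟨160, by norm_num, ?_⟩
  intro V R _ _ a al be ga lam s T E hal hbe hga hlam hs H y
  exact l1d_aux a al be ga lam s T E hal hbe hga hlam hs H y

end

end Pool.Agent.Helper11.KF
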